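import Pool.Agent.Helper92.PW.St

/-!
# Project PW, module CON (helper9)
-/

set_option autoImplicit false

open Finset

noncomputable section

namespace Pool.Agent.Helper9.PW

open Pool.Agent.Helper92.PW

theorem Qf_eq (Q : Fin 6 → ℤ) (p : Pt) : Qf Q p = Q 0 * p.1 ^ 2 + Q 1 * (p.1 * p.2.1) +
    Q 2 * p.2.1 ^ 2 + Q 3 * (p.1 * p.2.2) + Q 4 * (p.2.1 * p.2.2) + Q 5 * p.2.2 ^ 2 := by
  simp only [Qf, ver, Fin.sum_univ_succ, Fin.sum_univ_zero]
  simp
  ring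

theorem qq_eq (Q : Fin 6 → ℤ) (f1 f2 : Pt) (u v : ℤ) :
    qq Q f1 f2 (u, v) = Qf Q f1 * u ^ 2 + Bf Q f1 f2 * (u * v) + Qf Q f2 * v ^ 2 := by
  simp only [qq, Bf, lf, Qf_eq, Prod.fst_add, Prod.snd_add, Prod.smul_fst, Prod.smul_snd,
    smul_eq_mul]
  ring

theorem Qf_exp (Q : Fin 6 → ℤ) (p0 f1 f2 : Pt) (a u v : ℤ) :
    Qf Q (a • p0 + lf f1 f2 (u, v)) =
      a ^ 2 * Qf Q p0 + a * lb Q p0 f1 f2 (u, v) + qq Q f1 f2 (u, v) := by
  simp only [qq, lb, Bf, lf, Qf_eq, Prod.fst_add, Prod.snd_add, Prod.smul_fst, Prod.smul_snd,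
    smul_eq_mul]
  ring

theorem cramer (p0 f1 f2 p : Pt) :
    det3 p0 f1 f2 • p = det3 p f1 f2 • p0 + lf f1 f2 (det3 p0 p f2, det3 p0 f1 p) := by
  simp only [det3, dot, crs, lf]
  ext
  · simp only [Prod.fst_add, Prod.snd_add, Prod.smul_fst, Prod.smul_snd, smul_eq_mul]
    ring
  · simp only [Prod.fst_add, Prod.snd_add, Prod.smul_fst, Prod.smul_snd, smul_eq_mul]
    ring
  · simp only [Prod.fst_add, Prod.snd_add, Prod.smul_fst, Prod.smul_snd, smul_eq_mul]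
    ring

theorem hCON : StCON := by
  intro Q p0 f1 f2 p hdet hQ0 hQp hprm hlb
  set a := det3 p f1 f2 with ha
  set u' := det3 p0 p f2 with hu'
  set v' := det3 p0 f1 p with hv'
  have hp : p = a • p0 + lf f1 f2 (u', v') := by
    have := cramer p0 f1 f2 p
    rw [hdet, one_smul] at this
    exact this
  have h0 : a * lb Q p0 f1 f2 (u', v') + qq Q f1 f2 (u', v') = 0 := by
    have := Qf_exp Q p0 f1 f2 a u' v'
    rw [← hp, hQp, hQ0] at this
    linarith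
  have hne : u' ≠ 0 ∨ v' ≠ 0 := by
    by_contra h
    push Not at h
    apply hlb
    rw [h.1, h.2]
    simp [lb]
  have hgpos : 0 < Int.gcd u' v' := by
    rw [Int.gcd_pos_iff]
    exact hne
  obtain ⟨g, hgdef⟩ : ∃ g : ℤ, g = (Int.gcd u' v' : ℤ) := ⟨_, rfl⟩
  have hg1 : 1 ≤ g := by omega
  have hg0 : g ≠ 0 := by omega
  obtain ⟨u, hu⟩ : g ∣ u' := by rw [hgdef]; exact Int.gcd_dvd_left ..
  obtain ⟨v, hv⟩ : g ∣ v' := by rw [hgdef]; exact Int.gcd_dvd_right ..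
  have hcop : IsCoprime u v := by
    rw [Int.isCoprime_iff_gcd_eq_one]
    have h1 : Int.gcd u' v' = Int.natAbs g * Int.gcd u v := by
      rw [hu, hv, Int.gcd_mul_left]
    have h2 : Int.natAbs g = Int.gcd u' v' := by rw [hgdef]; simp
    rw [h2] at h1
    have : Int.gcd u' v' * 1 = Int.gcd u' v' * Int.gcd u v := by rw [mul_one]; exact h1
    exact (Nat.eq_of_mul_eq_mul_left hgpos this).symm
  have hlbg : lb Q p0 f1 f2 (u', v') = g * lb Q p0 f1 f2 (u, v) := by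
    simp only [lb, hu, hv]; ring
  have hqqg : qq Q f1 f2 (u', v') = g ^ 2 * qq Q f1 f2 (u, v) := by
    rw [qq_eq, qq_eq, hu, hv]; ring
  have hlfg : lf f1 f2 (u', v') = g • lf f1 f2 (u, v) := by
    simp only [lf, hu, hv, smul_add, smul_smul]
  have hp2 : p = a • p0 + g • lf f1 f2 (u, v) := by rw [← hlfg]; exact hp
  have h3 : a * lb Q p0 f1 f2 (u, v) = -(g * qq Q f1 f2 (u, v)) := by
    rw [hlbg, hqqg] at h0
    have : g * (a * lb Q p0 f1 f2 (u, v) + g * qq Q f1 f2 (u, v)) = 0 := by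
      linear_combination h0
    rcases mul_eq_zero.1 this with h | h
    · exact absurd h hg0
    · linarith
  have hag : IsCoprime g a := by
    rw [Int.isCoprime_iff_gcd_eq_one]
    have hd1 : ((Int.gcd g a : ℕ) : ℤ) ∣ g := Int.gcd_dvd_left ..
    have hd2 : ((Int.gcd g a : ℕ) : ℤ) ∣ a := Int.gcd_dvd_right ..
    have hunit : IsUnit ((Int.gcd g a : ℕ) : ℤ) := by
      apply hprm
      · rw [hp2]
        simp only [Prod.fst_add, Prod.smul_fst, smul_eq_mul]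
        exact dvd_add (Dvd.dvd.mul_right hd2 _) (Dvd.dvd.mul_right hd1 _)
      · rw [hp2]
        simp only [Prod.snd_add, Prod.smul_snd, Prod.fst_add, Prod.smul_fst, smul_eq_mul]
        exact dvd_add (Dvd.dvd.mul_right hd2 _) (Dvd.dvd.mul_right hd1 _)
      · rw [hp2]
        simp only [Prod.snd_add, Prod.smul_snd, smul_eq_mul]
        exact dvd_add (Dvd.dvd.mul_right hd2 _) (Dvd.dvd.mul_right hd1 _)
    rw [Int.isUnit_iff] at hunit
    omega
  have hgd : g ∣ lb Q p0 f1 f2 (u, v) := by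
    have : g ∣ a * lb Q p0 f1 f2 (u, v) := by rw [h3]; exact (dvd_mul_right g _).neg_right
    exact hag.dvd_of_dvd_mul_left this
  obtain ⟨c, hc⟩ := hgd
  have hac : a * c = -qq Q f1 f2 (u, v) := by
    rw [hc] at h3
    have : g * (a * c) = g * (-qq Q f1 f2 (u, v)) := by linear_combination h3
    exact mul_left_cancel₀ hg0 this
  have hc0 : c ≠ 0 := by
    intro h
    apply hlb
    rw [hlbg, hc, h]; simp
  refine ⟨a, g, u, v, c, hg1, hcop, hc0, ?_, hc, hp2, ?_⟩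
  · -- `c` divides the resultant
    have hR : RR Q p0 f1 f2 = Qf Q f1 * (Bf Q p0 f2) ^ 2 + Bf Q f1 f2 * (Bf Q p0 f2 * (-Bf Q p0 f1))
        + Qf Q f2 * (-Bf Q p0 f1) ^ 2 := by
      unfold RR; rw [qq_eq]
    have hL : lb Q p0 f1 f2 (u, v) = Bf Q p0 f1 * u + Bf Q p0 f2 * v := rfl
    have hcL : c ∣ lb Q p0 f1 f2 (u, v) := by rw [hc]; exact dvd_mul_left _ _
    have hcq : c ∣ qq Q f1 f2 (u, v) := by
      have : c ∣ a * c := dvd_mul_left _ _
      rw [hac] at this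
      exact (dvd_neg.1 this)
    have h1 : v ^ 2 * RR Q p0 f1 f2 = Bf Q p0 f1 ^ 2 * qq Q f1 f2 (u, v) +
        lb Q p0 f1 f2 (u, v) * (Qf Q f1 * lb Q p0 f1 f2 (u, v) - 2 * Qf Q f1 * Bf Q p0 f1 * u
          - Bf Q f1 f2 * Bf Q p0 f1 * v) := by
      rw [hR, qq_eq, hL]; ring
    have h2 : u ^ 2 * RR Q p0 f1 f2 = Bf Q p0 f2 ^ 2 * qq Q f1 f2 (u, v) +
        lb Q p0 f1 f2 (u, v) * (-(Bf Q f1 f2 * Bf Q p0 f2 * u) + Qf Q f2 * lb Q p0 f1 f2 (u, v)
          - 2 * Qf Q f2 * Bf Q p0 f2 * v) := by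
      rw [hR, qq_eq, hL]; ring
    have d1 : c ∣ v ^ 2 * RR Q p0 f1 f2 := by
      rw [h1]; exact dvd_add (Dvd.dvd.mul_left hcq _) (Dvd.dvd.mul_right hcL _)
    have d2 : c ∣ u ^ 2 * RR Q p0 f1 f2 := by
      rw [h2]; exact dvd_add (Dvd.dvd.mul_left hcq _) (Dvd.dvd.mul_right hcL _)
    obtain ⟨s, t, hst⟩ : IsCoprime (u ^ 2) (v ^ 2) := hcop.pow
    have : RR Q p0 f1 f2 = s * (u ^ 2 * RR Q p0 f1 f2) + t * (v ^ 2 * RR Q p0 f1 f2) := by
      linear_combination (-RR Q p0 f1 f2) * hst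
    rw [this]
    exact dvd_add (Dvd.dvd.mul_left d2 _) (Dvd.dvd.mul_left d1 _)
  · unfold cur
    rw [← hac, hc]
    conv_lhs => rw [hp2]
    rw [smul_add, smul_smul, smul_smul, mul_comm c a, mul_comm c g]

end Pool.Agent.Helper9.PW
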