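import Pool.Agent.Helper92.PW.St

/-!
# Project PW, module LN6 (helper9)
-/

set_option autoImplicit false

open Finset Polynomial

noncomputable section

namespace Pool.Agent.Helper9.PW

open Pool.Agent.Helper92.PW

section Poly

variable (Q : Fin 6 → ℤ) (p0 f1 f2 : Pt)

/-- quadratic form of three numbers in a commutative ring -/
def qf3 {A : Type} [CommRing A] (Q : Fin 6 → ℤ) (a b c : A) : A :=
  (Q 0 : A) * (a * a) + (Q 1 : A) * (a * b) + (Q 2 : A) * (b * b) + (Q 3 : A) * (a * c) +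
    (Q 4 : A) * (b * c) + (Q 5 : A) * (c * c)

/-- a coordinate of the parametrization -/
def crd {A : Type} [CommRing A] (Q : Fin 6 → ℤ) (b1 b2 : ℤ) (f1 f2 : Pt) (m n1 n2 : ℤ) (u v : A) : A :=
  -(qf3 Q (u * (f1.1 : A) + v * (f2.1 : A)) (u * (f1.2.1 : A) + v * (f2.2.1 : A))
      (u * (f1.2.2 : A) + v * (f2.2.2 : A))) * (m : A) +
    ((b1 : A) * u + (b2 : A) * v) * (u * (n1 : A) + v * (n2 : A))

theorem cur_crd (w : ℤ × ℤ) :
    cur Q p0 f1 f2 w =
      (crd Q (Bf Q p0 f1) (Bf Q p0 f2) f1 f2 p0.1 f1.1 f2.1 w.1 w.2,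
       crd Q (Bf Q p0 f1) (Bf Q p0 f2) f1 f2 p0.2.1 f1.2.1 f2.2.1 w.1 w.2,
       crd Q (Bf Q p0 f1) (Bf Q p0 f2) f1 f2 p0.2.2 f1.2.2 f2.2.2 w.1 w.2) := by
  have hq : qq Q f1 f2 w = qf3 Q (w.1 * f1.1 + w.2 * f2.1) (w.1 * f1.2.1 + w.2 * f2.2.1)
      (w.1 * f1.2.2 + w.2 * f2.2.2) := by
    simp only [qq, Qf, ver, lf, qf3, Fin.sum_univ_succ, Fin.sum_univ_zero]
    simp
    ring
  simp only [cur, crd, hq, lb, lf, Int.cast_id]
  ext <;> simp <;> ring

theorem crd_map {A B : Type} [CommRing A] [CommRing B] (φ : A →+* B) (b1 b2 m n1 n2 : ℤ) (u v : A) :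
    φ (crd Q b1 b2 f1 f2 m n1 n2 u v) = crd Q b1 b2 f1 f2 m n1 n2 (φ u) (φ v) := by
  simp only [crd, qf3, map_add, map_mul, map_neg, map_intCast]

theorem crd_deg (b1 b2 m n1 n2 : ℤ) (a b c d : ℚ) :
    (crd Q b1 b2 f1 f2 m n1 n2 (C a + C b * X) (C c + C d * X) : ℚ[X]).natDegree ≤ 2 := by
  have hU : (C a + C b * X : ℚ[X]).natDegree ≤ 1 := by compute_degree
  have hV : (C c + C d * X : ℚ[X]).natDegree ≤ 1 := by compute_degree
  have hI : ∀ i : ℤ, ((i : ℤ) : ℚ[X]).natDegree ≤ 0 := fun i => by simp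
  have hl : ∀ i j : ℤ, ((C a + C b * X) * (i : ℚ[X]) + (C c + C d * X) * (j : ℚ[X])).natDegree ≤ 1 := by
    intro i j
    refine natDegree_add_le_of_degree_le ?_ ?_
    · exact (natDegree_mul_le_of_le hU (hI i))
    · exact (natDegree_mul_le_of_le hV (hI j))
  have hm : ∀ (i : ℤ) (x y : ℚ[X]), x.natDegree ≤ 1 → y.natDegree ≤ 1 →
      ((i : ℚ[X]) * (x * y)).natDegree ≤ 2 := by
    intro i x y hx hy
    exact (natDegree_mul_le_of_le (hI i) (natDegree_mul_le_of_le hx hy)).trans (by norm_num)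
  have hq : ∀ x y z : ℚ[X], x.natDegree ≤ 1 → y.natDegree ≤ 1 → z.natDegree ≤ 1 →
      (qf3 Q x y z).natDegree ≤ 2 := by
    intro x y z hx hy hz
    unfold qf3
    refine natDegree_add_le_of_degree_le (natDegree_add_le_of_degree_le
      (natDegree_add_le_of_degree_le (natDegree_add_le_of_degree_le
        (natDegree_add_le_of_degree_le ?_ ?_) ?_) ?_) ?_) ?_
    · exact hm _ _ _ hx hx
    · exact hm _ _ _ hx hy
    · exact hm _ _ _ hy hy
    · exact hm _ _ _ hx hz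
    · exact hm _ _ _ hy hz
    · exact hm _ _ _ hz hz
  unfold crd
  refine natDegree_add_le_of_degree_le ?_ ?_
  · refine (natDegree_mul_le_of_le (m := 2) (n := 0) ?_ (hI m)).trans (by norm_num)
    rw [natDegree_neg]
    exact hq _ _ _ (hl _ _) (hl _ _) (hl _ _)
  · refine (natDegree_mul_le_of_le (m := 1) (n := 1) ?_ (hl _ _)).trans (by norm_num)
    refine natDegree_add_le_of_degree_le ?_ ?_
    · exact (natDegree_mul_le_of_le (hI b1) hU).trans (by norm_num)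
    · exact (natDegree_mul_le_of_le (hI b2) hV).trans (by norm_num)

end Poly

theorem hLN6 (h1 : StPOL) (h2 : StRC) : StLN6 := by
  intro k hk Q p0 f1 f2 c α α' γ hc hα S hS hinj
  by_contra hcard
  have hcard : 7 ≤ S.card := by omega
  have hne : S.Nonempty := Finset.card_pos.1 (by omega)
  obtain ⟨w0, hw0⟩ := hne
  obtain ⟨w1, hw1, hw01⟩ : ∃ w1 ∈ S, w1 ≠ w0 := by
    by_contra hno
    push Not at hno
    have : S ⊆ {w0} := fun w hw => by simpa using hno w hw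
    have := Finset.card_le_card this
    simp at this
    omega
  -- the parameter
  obtain ⟨s, hs⟩ : ∃ s : ℤ × ℤ → ℚ, ∀ w ∈ S,
      (w.1 : ℚ) = w0.1 + α' * s w ∧ (w.2 : ℚ) = w0.2 + (-α) * s w := by
    by_cases h : α' = 0
    · have hα0 : α ≠ 0 := by
        rcases hα with h' | h'
        · exact h'
        · exact absurd h h'
      have hαq : (α : ℚ) ≠ 0 := by exact_mod_cast hα0
      refine ⟨fun w => -((w.2 : ℚ) - w0.2) / α, fun w hw => ?_⟩
      have e1 := (hS w hw).1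
      have e0 := (hS w0 hw0).1
      rw [h] at e1 e0
      have e2 : α * (w.1 - w0.1) = 0 := by linear_combination e1 - e0
      have e3 : w.1 = w0.1 := by
        rcases mul_eq_zero.1 e2 with h' | h'
        · exact absurd h' hα0
        · omega
      refine ⟨by rw [e3, h]; simp, ?_⟩
      field_simp
      ring
    · have hαq : (α' : ℚ) ≠ 0 := by exact_mod_cast h
      refine ⟨fun w => ((w.1 : ℚ) - w0.1) / α', fun w hw => ?_⟩
      have e1 := (hS w hw).1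
      have e0 := (hS w0 hw0).1
      have e2 : (α : ℚ) * (w.1 - w0.1) + α' * (w.2 - w0.2) = 0 := by
        have : α * (w.1 - w0.1) + α' * (w.2 - w0.2) = 0 := by linear_combination e1 - e0
        exact_mod_cast this
      refine ⟨by field_simp; ring, ?_⟩
      field_simp
      linear_combination e2
  have hsinj : Set.InjOn s S := by
    intro w hw w' hw' h
    have a1 := hs w hw
    have a2 := hs w' hw'
    rw [h] at a1
    ext
    · exact_mod_cast a1.1.trans a2.1.symm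
    · exact_mod_cast a1.2.trans a2.2.symm
  set U : ℚ[X] := C (w0.1 : ℚ) + C (α' : ℚ) * X with hU
  set V : ℚ[X] := C (w0.2 : ℚ) + C (-(α : ℚ)) * X with hV
  set b1 := Bf Q p0 f1 with hb1
  set b2 := Bf Q p0 f2 with hb2
  set x : ℚ[X] := crd Q b1 b2 f1 f2 p0.1 f1.1 f2.1 U V with hx
  set y : ℚ[X] := crd Q b1 b2 f1 f2 p0.2.1 f1.2.1 f2.2.1 U V with hy
  set z : ℚ[X] := crd Q b1 b2 f1 f2 p0.2.2 f1.2.2 f2.2.2 U V with hz
  have hUe : ∀ w ∈ S, U.eval (s w) = (w.1 : ℚ) := by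
    intro w hw
    rw [(hs w hw).1, hU]; simp
  have hVe : ∀ w ∈ S, V.eval (s w) = (w.2 : ℚ) := by
    intro w hw
    rw [(hs w hw).2, hV]; simp
  have hcrd : ∀ m n1 n2 : ℤ, ∀ w ∈ S,
      (crd Q b1 b2 f1 f2 m n1 n2 U V).eval (s w) =
        ((crd Q b1 b2 f1 f2 m n1 n2 w.1 w.2 : ℤ) : ℚ) := by
    intro m n1 n2 w hw
    have e1 := crd_map Q f1 f2 (Polynomial.evalRingHom (s w)) b1 b2 m n1 n2 U V
    have e2 := crd_map Q f1 f2 (Int.castRingHom ℚ) b1 b2 m n1 n2 w.1 w.2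
    simp only [Polynomial.coe_evalRingHom] at e1
    rw [e1, hUe w hw, hVe w hw]
    exact e2.symm
  have hxe : ∀ w ∈ S, x.eval (s w) = ((cur Q p0 f1 f2 w).1 : ℚ) := by
    intro w hw; rw [cur_crd]; exact hcrd _ _ _ w hw
  have hye : ∀ w ∈ S, y.eval (s w) = ((cur Q p0 f1 f2 w).2.1 : ℚ) := by
    intro w hw; rw [cur_crd]; exact hcrd _ _ _ w hw
  have hze : ∀ w ∈ S, z.eval (s w) = ((cur Q p0 f1 f2 w).2.2 : ℚ) := by
    intro w hw; rw [cur_crd]; exact hcrd _ _ _ w hw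
  have hdx : x.natDegree ≤ 2 := crd_deg ..
  have hdy : y.natDegree ≤ 2 := crd_deg ..
  have hdz : z.natDegree ≤ 2 := crd_deg ..
  set P : ℚ[X] := x ^ 3 + y ^ 3 + z ^ 3 - C ((k * c ^ 3 : ℤ) : ℚ) with hP
  have hPd : P.natDegree ≤ 6 := by
    have hC : (C ((k * c ^ 3 : ℤ) : ℚ) : ℚ[X]).natDegree ≤ 6 :=
      (natDegree_C _).le.trans (Nat.zero_le _)
    have hx3 : (x ^ 3).natDegree ≤ 6 := natDegree_pow_le_of_le 3 hdx
    have hy3 : (y ^ 3).natDegree ≤ 6 := natDegree_pow_le_of_le 3 hdy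
    have hz3 : (z ^ 3).natDegree ≤ 6 := natDegree_pow_le_of_le 3 hdz
    rw [hP]
    exact (natDegree_sub_le _ _).trans (max_le (natDegree_add_le_of_degree_le
      (natDegree_add_le_of_degree_le hx3 hy3) hz3) hC)
  have hP0 : P = 0 := by
    refine Polynomial.eq_zero_of_natDegree_lt_card_of_eval_eq_zero' P (S.image s) ?_ ?_
    · intro r hr
      obtain ⟨w, hw, rfl⟩ := Finset.mem_image.1 hr
      have hF := (hS w hw).2
      simp only [hP, eval_sub, eval_add, eval_pow, eval_C, hxe w hw, hye w hw, hze w hw]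
      rw [sub_eq_zero]
      have : ((cur Q p0 f1 f2 w).1) ^ 3 + ((cur Q p0 f1 f2 w).2.1) ^ 3
        + ((cur Q p0 f1 f2 w).2.2) ^ 3 = k * c ^ 3 := hF
      exact_mod_cast this
    · rw [Finset.card_image_of_injOn hsinj]
      omega
  have heq : x ^ 3 + y ^ 3 + z ^ 3 = C ((k * c ^ 3 : ℤ) : ℚ) := sub_eq_zero.1 hP0
  obtain ⟨kx, ky, kz⟩ := h1 _ (h2 k c hk hc) x y z hdx hdy hdz heq
  rw [natDegree_eq_zero] at kx ky kz
  obtain ⟨x', hx'⟩ := kx
  obtain ⟨y', hy'⟩ := ky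
  obtain ⟨z', hz'⟩ := kz
  apply hw01
  apply hinj w1 hw1 w0 hw0
  have hx0 := hxe w0 hw0
  have hx1 := hxe w1 hw1
  have hy0 := hye w0 hw0
  have hy1 := hye w1 hw1
  have hz0 := hze w0 hw0
  have hz1 := hze w1 hw1
  rw [← hx', eval_C] at hx0 hx1
  rw [← hy', eval_C] at hy0 hy1
  rw [← hz', eval_C] at hz0 hz1
  have ex : (cur Q p0 f1 f2 w1).1 = (cur Q p0 f1 f2 w0).1 := by exact_mod_cast hx1.symm.trans hx0
  have ey : (cur Q p0 f1 f2 w1).2.1 = (cur Q p0 f1 f2 w0).2.1 := by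
    exact_mod_cast hy1.symm.trans hy0
  have ez : (cur Q p0 f1 f2 w1).2.2 = (cur Q p0 f1 f2 w0).2.2 := by
    exact_mod_cast hz1.symm.trans hz0
  exact Prod.ext ex (Prod.ext ey ez)

end Pool.Agent.Helper9.PW
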