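import Pool.Agent.Helper92.PW.St

/-!
# Project PW, module MNK (helper9)
-/

set_option autoImplicit false

open Finset MeasureTheory

noncomputable section

namespace Pool.Agent.Helper9.PW

open Pool.Agent.Helper92.PW

/-- Minkowski's theorem on linear forms in the plane (with a factor `2`) -/
theorem minkowski2 (l1 l2 m1 m2 P P' : ℝ) (hD : l1 * m2 - l2 * m1 ≠ 0) (hP : 0 < P) (hP' : 0 < P')
    (hPP : |l1 * m2 - l2 * m1| < P * P') :
    ∃ a b : ℤ, (a ≠ 0 ∨ b ≠ 0) ∧ |a * m2 - b * m1| ≤ P ∧ |l1 * b - l2 * a| ≤ P' := by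
  classical
  set M : Matrix (Fin 2) (Fin 2) ℝ := !![m2, -m1; -l2, l1] with hM
  set f : (Fin 2 → ℝ) →ₗ[ℝ] (Fin 2 → ℝ) := Matrix.toLin' M with hf
  have hdet : LinearMap.det f = l1 * m2 - l2 * m1 := by
    rw [hf, LinearMap.det_toLin', hM, Matrix.det_fin_two_of]; ring
  have hdet0 : LinearMap.det f ≠ 0 := by rw [hdet]; exact hD
  set v : Fin 2 → ℝ := ![P, P'] with hv
  set s : Set (Fin 2 → ℝ) := f ⁻¹' (Set.Icc (-v) v) with hs
  have hconv : Convex ℝ s := (convex_Icc (-v) v).linear_preimage f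
  have hsymm : ∀ x ∈ s, -x ∈ s := by
    intro x hx
    rw [hs, Set.mem_preimage, Set.mem_Icc] at hx ⊢
    rw [map_neg]
    exact ⟨neg_le_neg hx.2, by have := neg_le_neg hx.1; rwa [neg_neg] at this⟩
  set b := Pi.basisFun ℝ (Fin 2) with hb
  have hfund := ZSpan.isAddFundamentalDomain' b (volume : Measure (Fin 2 → ℝ))
  have hvolF : volume (ZSpan.fundamentalDomain b) = 1 := by
    rw [ZSpan.volume_fundamentalDomain]
    have : Matrix.of ⇑b = (1 : Matrix (Fin 2) (Fin 2) ℝ) := by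
      ext i j
      simp [hb, Matrix.one_apply, Pi.single_apply, eq_comm]
    rw [this, Matrix.det_one]
    simp
  have hvols : volume s = ENNReal.ofReal (|l1 * m2 - l2 * m1|⁻¹) *
      (ENNReal.ofReal (2 * P) * ENNReal.ofReal (2 * P')) := by
    rw [hs, Measure.addHaar_preimage_linearMap _ hdet0, hdet, Real.volume_Icc_pi, abs_inv,
      Fin.prod_univ_two]
    congr 3
    · simp [hv]; ring
    · simp [hv]; ring
  have hlt : volume (ZSpan.fundamentalDomain b) * 2 ^ Module.finrank ℝ (Fin 2 → ℝ) < volume s := by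
    rw [hvolF, hvols, one_mul, Module.finrank_fin_fun,
      ← ENNReal.ofReal_mul (by positivity), ← ENNReal.ofReal_mul (by positivity)]
    have h4 : (2 : ENNReal) ^ 2 = ENNReal.ofReal 4 := by
      rw [← ENNReal.ofReal_ofNat 2, ← ENNReal.ofReal_pow (by norm_num)]; norm_num
    rw [h4]
    have hDp : 0 < |l1 * m2 - l2 * m1| := abs_pos.2 hD
    refine (ENNReal.ofReal_lt_ofReal_iff (by positivity)).2 ?_
    rw [inv_mul_eq_div, lt_div_iff₀ hDp]
    nlinarith
  have hcount : Countable (Submodule.span ℤ (Set.range b)).toAddSubgroup :=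
    inferInstanceAs (Countable (Submodule.span ℤ (Set.range b)))
  obtain ⟨x, hx0, hxs⟩ := exists_ne_zero_mem_lattice_of_measure_mul_two_pow_lt_measure hfund
    hsymm hconv hlt
  have hxm : ((x : Fin 2 → ℝ)) ∈ Submodule.span ℤ (Set.range b) := x.2
  rw [Module.Basis.mem_span_iff_repr_mem (R := ℤ) b (x : Fin 2 → ℝ)] at hxm
  obtain ⟨a, ha⟩ := hxm 0
  obtain ⟨c, hc⟩ := hxm 1
  have ha' : (x : Fin 2 → ℝ) 0 = a := by
    rw [← show (algebraMap ℤ ℝ) a = (a : ℝ) from rfl, ha]; simp [hb]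
  have hc' : (x : Fin 2 → ℝ) 1 = c := by
    rw [← show (algebraMap ℤ ℝ) c = (c : ℝ) from rfl, hc]; simp [hb]
  rw [hs, Set.mem_preimage, Set.mem_Icc, Pi.le_def, Pi.le_def] at hxs
  have hf0 : f x 0 = a * m2 - c * m1 := by
    rw [hf, Matrix.toLin'_apply, hM]
    simp [Matrix.mulVec, dotProduct, Fin.sum_univ_two, ha', hc']
    ring
  have hf1 : f x 1 = l1 * c - l2 * a := by
    rw [hf, Matrix.toLin'_apply, hM]
    simp [Matrix.mulVec, dotProduct, Fin.sum_univ_two, ha', hc']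
    ring
  refine ⟨a, c, ?_, ?_, ?_⟩
  · by_contra h
    push Not at h
    apply hx0
    ext i
    fin_cases i
    · simpa [h.1] using ha'
    · simpa [h.2] using hc'
  · rw [abs_le, ← hf0]
    have h1 := hxs.1 0
    have h2 := hxs.2 0
    simp only [hv, Pi.neg_apply, Matrix.cons_val_zero] at h1 h2
    exact ⟨h1, h2⟩
  · rw [abs_le, ← hf1]
    have h1 := hxs.1 1
    have h2 := hxs.2 1
    simp only [hv, Pi.neg_apply, Matrix.cons_val_one] at h1 h2
    exact ⟨h1, h2⟩

theorem hMNK : StMNK := by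
  intro l1 l2 m1 m2 X Y hD hX hY S hS hline
  set D := |l1 * m2 - l2 * m1| with hDdef
  have hDp : 0 < D := abs_pos.2 hD
  set T := √(2 * (X * Y / D)) with hT
  have hXYD : 0 < X * Y / D := by positivity
  have hTp : 0 < T := Real.sqrt_pos.2 (by positivity)
  have hT2 : T * T = 2 * (X * Y / D) := Real.mul_self_sqrt (by positivity)
  obtain ⟨a, b, hab, h1, h2⟩ := minkowski2 l1 l2 m1 m2 (D * T / X) (D * T / Y) hD (by positivity)
    (by positivity) (by
      have : D * T / X * (D * T / Y) = 2 * D := by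
        calc D * T / X * (D * T / Y) = D * D * (T * T) / (X * Y) := by field_simp
          _ = 2 * D := by rw [hT2]; field_simp
      rw [this, ← hDdef]; linarith)
  have hval : ∀ w ∈ S, |((a * w.1 + b * w.2 : ℤ) : ℝ)| ≤ 2 * T := by
    intro w hw
    obtain ⟨w1, w2⟩ := hS w hw
    have key : (l1 * m2 - l2 * m1) * ((a * w.1 + b * w.2 : ℤ) : ℝ) =
        (a * m2 - b * m1) * (l1 * w.1 + l2 * w.2) + (l1 * b - l2 * a) * (m1 * w.1 + m2 * w.2) := by
      push_cast; ring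
    have h3 : D * |((a * w.1 + b * w.2 : ℤ) : ℝ)| ≤ D * T / X * X + D * T / Y * Y := by
      rw [hDdef, ← abs_mul, key]
      refine (abs_add_le _ _).trans ?_
      rw [abs_mul, abs_mul]
      exact add_le_add (mul_le_mul h1 w1 (abs_nonneg _) (by positivity))
        (mul_le_mul h2 w2 (abs_nonneg _) (by positivity))
    have h4 : D * T / X * X + D * T / Y * Y = D * (2 * T) := by field_simp; ring
    rw [h4] at h3
    exact le_of_mul_le_mul_left h3 hDp
  have himg : S.image (fun w : ℤ × ℤ => a * w.1 + b * w.2) ⊆ Finset.Icc (-⌊2 * T⌋) ⌊2 * T⌋ := by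
    intro z hz
    obtain ⟨w, hw, rfl⟩ := Finset.mem_image.1 hz
    have := abs_le.1 (hval w hw)
    rw [Finset.mem_Icc]
    have h5 : a * w.1 + b * w.2 ≤ ⌊2 * T⌋ := Int.le_floor.2 this.2
    have h6 : -(a * w.1 + b * w.2) ≤ ⌊2 * T⌋ := by
      apply Int.le_floor.2
      push_cast at this ⊢
      linarith [this.1]
    exact ⟨by linarith, h5⟩
  have hfl0 : 0 ≤ ⌊2 * T⌋ := Int.floor_nonneg.2 (by positivity)
  have hcI : ((Finset.Icc (-⌊2 * T⌋) ⌊2 * T⌋).card : ℝ) ≤ 4 * T + 1 := by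
    rw [Int.card_Icc]
    have h7 : (((⌊2 * T⌋ + 1 - -⌊2 * T⌋).toNat : ℤ) : ℝ) = ((⌊2 * T⌋ + 1 - -⌊2 * T⌋ : ℤ) : ℝ) := by
      rw [Int.toNat_of_nonneg (by omega)]
    have h8 : (((⌊2 * T⌋ + 1 - -⌊2 * T⌋).toNat : ℕ) : ℝ) =
        (((⌊2 * T⌋ + 1 - -⌊2 * T⌋).toNat : ℤ) : ℝ) := by norm_cast
    rw [h8, h7]
    push_cast
    have := Int.floor_le (2 * T)
    linarith
  have hcard : S.card ≤ 6 * (S.image (fun w : ℤ × ℤ => a * w.1 + b * w.2)).card := by
    apply Finset.card_le_mul_card_image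
    intro z _
    exact hline a b z hab
  have hcard2 : (S.card : ℝ) ≤ 6 * (4 * T + 1) := by
    have h9 : ((S.image (fun w : ℤ × ℤ => a * w.1 + b * w.2)).card : ℝ) ≤
        ((Finset.Icc (-⌊2 * T⌋) ⌊2 * T⌋).card : ℝ) := by
      exact_mod_cast Finset.card_le_card himg
    have h10 : (S.card : ℝ) ≤ 6 * ((S.image (fun w : ℤ × ℤ => a * w.1 + b * w.2)).card : ℝ) := by
      exact_mod_cast hcard
    linarith
  have hT3 : T ≤ 3 / 2 * √(X * Y / D) := by
    rw [hT, Real.sqrt_mul (by norm_num)]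
    have : √(2 : ℝ) ≤ 3 / 2 := by
      rw [Real.sqrt_le_left (by norm_num)]; norm_num
    exact mul_le_mul_of_nonneg_right this (Real.sqrt_nonneg _)
  linarith

end Pool.Agent.Helper9.PW
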